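import Pool.Agent.H.MP_c90f74_nt.SF.Avg

/-!
# UV/Avg: double counting over the `r`-subsets of `W`

PROOF. As `SF.Avg_double` and `SF.avg` (in `Pool/Agent/H/MP_c90f74_nt/SF/Avg.lean`) with `W` in place of `Icc 1 L`:
`|J| C(t, r) ≤ ∑_{j ∈ J} C(|f j|, r) = ∑_{K ∈ powersetCard r W} |{j ∈ J : K ⊆ f j}| ≤ C(|W|, r) B`.
-/

set_option autoImplicit false

namespace Pool.Agent.H.MP_c90f74_nt.UV

open Finset

private theorem avgw_double (J W : Finset ℕ) (r : ℕ) (f : ℕ → Finset ℕ) (hf : ∀ j ∈ J, f j ⊆ W) :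
    ∑ j ∈ J, ((f j).card.choose r)
      = ∑ K ∈ powersetCard r W, (J.filter (fun j => K ⊆ f j)).card := by
  have h := Finset.sum_card_bipartiteAbove_eq_sum_card_bipartiteBelow
    (s := J) (t := powersetCard r W) (fun j K => K ⊆ f j)
  have h1 : ∀ j ∈ J, (f j).card.choose r
      = ((powersetCard r W).bipartiteAbove (fun j K => K ⊆ f j) j).card := by
    intro j hj
    rw [← Finset.card_powersetCard]
    congr 1
    ext K
    simp only [Finset.bipartiteAbove, Finset.mem_filter, Finset.mem_powersetCard]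
    constructor
    · rintro ⟨h1, h2⟩
      exact ⟨⟨h1.trans (hf j hj), h2⟩, h1⟩
    · rintro ⟨⟨_, h2⟩, h1⟩
      exact ⟨h1, h2⟩
  rw [Finset.sum_congr rfl h1, h]
  rfl

theorem avgw (J W : Finset ℕ) (r t : ℕ) (f : ℕ → Finset ℕ)
    (hf : ∀ j ∈ J, f j ⊆ W ∧ t ≤ (f j).card) (B : ℝ)
    (hB : ∀ K ⊆ W, K.card = r → ((J.filter (fun j => K ⊆ f j)).card : ℝ) ≤ B) :
    (J.card : ℝ) * ((t.choose r : ℕ) : ℝ) ≤ ((W.card.choose r : ℕ) : ℝ) * B := by
  have hd := avgw_double J W r f (fun j hj => (hf j hj).1)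
  have h1 : (J.card : ℝ) * ((t.choose r : ℕ) : ℝ) ≤ ((∑ j ∈ J, ((f j).card.choose r) : ℕ) : ℝ) := by
    have : J.card * t.choose r ≤ ∑ j ∈ J, ((f j).card.choose r) := by
      rw [← smul_eq_mul, ← Finset.sum_const]
      exact Finset.sum_le_sum (fun j hj => Nat.choose_le_choose r (hf j hj).2)
    exact_mod_cast this
  have h2 : ((∑ j ∈ J, ((f j).card.choose r) : ℕ) : ℝ) ≤ ((W.card.choose r : ℕ) : ℝ) * B := by
    rw [hd, Nat.cast_sum]
    have h3 : ∀ K ∈ powersetCard r W, ((J.filter (fun j => K ⊆ f j)).card : ℝ) ≤ B := by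
      intro K hK
      rw [Finset.mem_powersetCard] at hK
      exact hB K hK.1 hK.2
    have h4 := Finset.sum_le_card_nsmul _ _ B h3
    rw [Finset.card_powersetCard, nsmul_eq_mul] at h4
    exact h4
  exact h1.trans h2

end Pool.Agent.H.MP_c90f74_nt.UV
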