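import Pool.Agent.H.MP_c90f74_nt.SF.Ord

/-!
# UV/Defs: exponents from a set `W` contained in a window `[a + 1, a + N]`

PROOF. `ordw_inj` as `SF.ord_inj`: if `k < k'`, then `p ∣ 2^k (2^(k'-k) - 1)`, `p` is odd, `1 ≤ k' - k < N`.
-/

set_option autoImplicit false

namespace Pool.Agent.H.MP_c90f74_nt.UV

open Finset

open Classical in
/-- The `k ∈ W`, `2^k < n`, such that no `p ∈ PP y z N` divides `n - 2^k`. -/
noncomputable def KW (W : Finset ℕ) (y z N n : ℕ) : Finset ℕ :=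
  W.filter (fun k => 2 ^ k < n ∧ ∀ p ∈ SF.PP y z N, ¬ p ∣ n - 2 ^ k)

/-- The `k ∈ W` with `2^k < n` and `n - 2^k` prime. -/
def RW (W : Finset ℕ) (n : ℕ) : Finset ℕ :=
  W.filter (fun k => 2 ^ k < n ∧ (n - 2 ^ k).Prime)

theorem ordw_inj {y z N a p k k' : ℕ} (hy : 2 ≤ y) (hp : p ∈ SF.PP y z N)
    (hk : k ∈ Icc (a + 1) (a + N)) (hk' : k' ∈ Icc (a + 1) (a + N))
    (h : 2 ^ k ≡ 2 ^ k' [MOD p]) : k = k' := by
  have key : ∀ u v : ℕ, u ∈ Icc (a + 1) (a + N) → v ∈ Icc (a + 1) (a + N) → u < v →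
      ¬ 2 ^ u ≡ 2 ^ v [MOD p] := by
    intro u v hu hv huv hc
    simp only [SF.PP, mem_filter, mem_Ioc] at hp
    rw [mem_Icc] at hu hv
    obtain ⟨⟨hp1, hp2⟩, hpp, hh⟩ := hp
    refine hh (v - u) (by omega) (by omega) ?_
    have h1 : p ∣ 2 ^ v - 2 ^ u :=
      (Nat.modEq_iff_dvd' (Nat.pow_le_pow_right (by norm_num) huv.le)).1 hc
    have h2 : 2 ^ v - 2 ^ u = 2 ^ u * (2 ^ (v - u) - 1) := by
      rw [Nat.mul_sub, mul_one, ← pow_add]
      congr 2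
      omega
    rw [h2] at h1
    have h3 : Nat.Coprime p (2 ^ u) := by
      apply Nat.Coprime.pow_right
      rw [Nat.coprime_comm, Nat.coprime_primes Nat.prime_two hpp]
      omega
    exact h3.dvd_of_dvd_mul_left h1
  rcases lt_trichotomy k k' with h1 | h1 | h1
  · exact absurd h (key k k' hk hk' h1)
  · exact h1
  · exact absurd h.symm (key k' k hk' hk h1)

end Pool.Agent.H.MP_c90f74_nt.UV
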