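import Pool.Agent.H.MP_c90f74_nt.UT.Mont
import Pool.Agent.H.MP_c90f74_nt.UT.RankB
import Pool.Agent.H.MP_c90f74_nt.UV.Defs

/-!
# UV/Cnt: the sieve bound for a set of exponents in a window

PROOF. As `UT/Cnt`, with `KW W y z N` in place of `KK y z L`, `ordw_inj` in place of `SF.ord_inj`; `r ≤ N`, `2 r ≤ y` as `y ≥ 8` and `y ≥ N^3`.
-/

set_option autoImplicit false

namespace Pool.Agent.H.MP_c90f74_nt.UV

open Finset

private theorem CntW_class {x N a y z r p : ℕ} (hy : 2 ≤ y) (W K Z : Finset ℕ)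
    (hW : W ⊆ Icc (a + 1) (a + N)) (hK : K ⊆ W)
    (hKr : K.card = r) (hp : p ∈ SF.PP y z N) (hpp : p.Prime)
    (hZ : ∀ j ∈ Z, K ⊆ KW W y z N (x + 1 + j)) :
    (Z.image (fun n => n % p)).card + r ≤ p := by
  classical
  have hp0 : 0 < p := hpp.pos
  have hc : ∀ k : ℕ, (2 ^ k + (p - (x + 1) % p)) % p + (x + 1) ≡ 2 ^ k [MOD p] := by
    intro k
    have h1 : (2 ^ k + (p - (x + 1) % p)) % p + (x + 1) ≡
        2 ^ k + (p - (x + 1) % p) + (x + 1) % p [MOD p] :=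
      Nat.ModEq.add (Nat.mod_modEq _ _) (Nat.mod_modEq _ _).symm
    have h2 : 2 ^ k + (p - (x + 1) % p) + (x + 1) % p = 2 ^ k + p := by
      have := Nat.mod_lt (x + 1) hp0
      omega
    rw [h2] at h1
    refine h1.trans ?_
    show (2 ^ k + p) % p = 2 ^ k % p
    exact Nat.add_mod_right _ _
  have hinj : Set.InjOn (fun k : ℕ => (2 ^ k + (p - (x + 1) % p)) % p) (K : Set ℕ) := by
    intro k hk k' hk' he
    have he' : (2 ^ k + (p - (x + 1) % p)) % p = (2 ^ k' + (p - (x + 1) % p)) % p := he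
    have h2 := (hc k).symm
    rw [he'] at h2
    have h1 : 2 ^ k ≡ 2 ^ k' [MOD p] := h2.trans (hc k')
    exact ordw_inj hy hp (hW (hK (Finset.mem_coe.1 hk))) (hW (hK (Finset.mem_coe.1 hk'))) h1
  have hcard : (K.image (fun k : ℕ => (2 ^ k + (p - (x + 1) % p)) % p)).card = r := by
    rw [Finset.card_image_of_injOn hinj, hKr]
  have hdis : Disjoint (Z.image (fun n => n % p))
      (K.image (fun k : ℕ => (2 ^ k + (p - (x + 1) % p)) % p)) := by
    rw [Finset.disjoint_left]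
    intro a ha hb
    obtain ⟨j, hj, hja⟩ := Finset.mem_image.1 ha
    obtain ⟨k, hk, hka⟩ := Finset.mem_image.1 hb
    have h1 := hZ j hj hk
    unfold KW at h1
    rw [Finset.mem_filter] at h1
    obtain ⟨-, h2, h3⟩ := h1
    refine h3 p hp ?_
    have h4 : 2 ^ k ≡ x + 1 + j [MOD p] := by
      have h5 := (hc k).symm
      rw [hka, ← hja] at h5
      refine h5.trans ?_
      have h6 : j % p + (x + 1) ≡ j + (x + 1) [MOD p] :=
        Nat.ModEq.add_right _ (Nat.mod_modEq _ _)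
      rw [add_comm (x + 1) j]
      exact h6
    exact (Nat.modEq_iff_dvd' h2.le).1 h4
  rw [← hcard, ← Finset.card_union_of_disjoint hdis]
  have hsub : Z.image (fun n => n % p) ∪
      K.image (fun k : ℕ => (2 ^ k + (p - (x + 1) % p)) % p) ⊆ range p := by
    intro a ha
    rcases Finset.mem_union.1 ha with h | h
    · obtain ⟨j, -, rfl⟩ := Finset.mem_image.1 h
      exact Finset.mem_range.2 (Nat.mod_lt _ hp0)
    · obtain ⟨k, -, rfl⟩ := Finset.mem_image.1 h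
      exact Finset.mem_range.2 (Nat.mod_lt _ hp0)
  exact (Finset.card_le_card hsub).trans (le_of_eq (Finset.card_range p))

open Classical in
theorem cntw2 (x H N a y z r : ℕ) (hy : N ^ 3 ≤ y) (hy8 : 8 ≤ y) (hz : 3 ≤ z) (hr : 1 ≤ r)
    (hH : 16 ≤ H) (hzH : 52 * (r : ℝ) * Real.log z ≤ Real.log H)
    (W K : Finset ℕ) (hW : W ⊆ Icc (a + 1) (a + N)) (hK : K ⊆ W) (hKr : K.card = r) :
    (((range H).filter (fun j => K ⊆ KW W y z N (x + 1 + j))).card : ℝ) ≤
      16 * H * Real.exp (-(r * ∑ p ∈ SF.PP y z N, 1 / (p : ℝ))) := by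
  generalize hZdef : (range H).filter (fun j => K ⊆ KW W y z N (x + 1 + j)) = Z
  have hrN : r ≤ N := by
    rw [← hKr]
    refine (Finset.card_le_card (hK.trans hW)).trans ?_
    rw [Nat.card_Icc]
    omega
  have h2ry : 2 * r ≤ y := by
    rcases Nat.lt_or_ge r 4 with h | h
    · omega
    · have h1 : N * 4 ≤ N * (N * N) := Nat.mul_le_mul_left N (by nlinarith)
      have h2 : N ^ 3 = N * (N * N) := by ring
      omega
  have hpP : ∀ p ∈ SF.PP y z N, p.Prime ∧ y < p ∧ p ≤ z := by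
    intro p hp
    unfold SF.PP at hp
    rw [Finset.mem_filter, Finset.mem_Ioc] at hp
    exact ⟨hp.2.1, hp.1.1, hp.1.2⟩
  have hZr : Z ⊆ range H := by
    rw [← hZdef]
    exact Finset.filter_subset _ _
  have hZm : ∀ j ∈ Z, K ⊆ KW W y z N (x + 1 + j) := by
    intro j hj
    rw [← hZdef, Finset.mem_filter] at hj
    exact hj.2
  have h2r : ∀ p ∈ SF.PP y z N, 2 * r < p := by
    intro p hp
    have := (hpP p hp).2.1
    omega
  have hQ2 : Nat.sqrt H ^ 2 ≤ H := Nat.sqrt_le' H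
  have hQ3 : H < (Nat.sqrt H + 1) ^ 2 := Nat.lt_succ_sqrt' H
  have hQ4 : 4 ≤ Nat.sqrt H := Nat.le_sqrt.2 (by omega)
  have hQ5 : 13 * (r : ℝ) * Real.log z ≤ Real.log (Nat.sqrt H : ℕ) := by
    have h1 : H ≤ (2 * Nat.sqrt H) ^ 2 :=
      hQ3.le.trans (Nat.pow_le_pow_left (by omega) 2)
    have h2 : (H : ℝ) ≤ (2 * (Nat.sqrt H : ℕ) : ℝ) ^ 2 := by exact_mod_cast h1
    have hH0 : (0 : ℝ) < H := by
      have h3 : (16 : ℝ) ≤ H := by exact_mod_cast hH
      linarith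
    have hQ0 : (0 : ℝ) < (Nat.sqrt H : ℕ) := by
      have h3 : (4 : ℝ) ≤ (Nat.sqrt H : ℕ) := by exact_mod_cast hQ4
      linarith
    have h4 : Real.log H ≤ 2 * (Real.log 2 + Real.log (Nat.sqrt H : ℕ)) := by
      have h5 := Real.log_le_log hH0 h2
      rwa [Real.log_pow, Real.log_mul (by norm_num) hQ0.ne', Nat.cast_ofNat] at h5
    have h6 : 4 * Real.log 2 ≤ Real.log H := by
      have h7 : Real.log ((2 : ℝ) ^ 4) ≤ Real.log H :=
        Real.log_le_log (by norm_num) (by norm_num; exact_mod_cast hH)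
      rwa [Real.log_pow, Nat.cast_ofNat] at h7
    linarith
  have hM := UT.mont2 Z (SF.PP y z N) H (Nat.sqrt H) r hZr
    (fun p hp => ⟨(hpP p hp).1, by have := h2r p hp; omega,
      CntW_class (x := x) (by omega) W K Z hW hK hKr hp (hpP p hp).1 hZm⟩) (by omega) hQ2
  have hR := UT.rank (SF.PP y z N) (Nat.sqrt H) z r
    (fun p hp => ⟨(hpP p hp).1, (h2r p hp).le, (hpP p hp).2.2⟩) hr hz (by omega) hQ5
  have h1 : (Z.card : ℝ) * (Real.exp (r * ∑ p ∈ SF.PP y z N, 1 / (p : ℝ)) / 2) ≤ 8 * H :=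
    (mul_le_mul_of_nonneg_left hR (Nat.cast_nonneg _)).trans hM
  rw [Real.exp_neg, ← div_eq_mul_inv, le_div_iff₀ (Real.exp_pos _)]
  linarith

end Pool.Agent.H.MP_c90f74_nt.UV
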