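import Pool.Agent.H.MP_c90f74_nt.UV.Defs

/-!
# UV/Exc: the exceptional integers

PROOF. `badw`: `l = Nat.log 2 x` (`2^l ≤ x < 2^(l+1)`). If `2^k < n := x + 1 + j`, `n - 2^k ≤ z`, then `2^k ≥ n - z > x - z ≥ z`, so `2^(k+1) ≥ 2 (n - z) > x` (as `2 z ≤ x < n`) and `2^k < n ≤ 2 x`
(`j < H ≤ x`), so `k = l` or `k = l + 1`. For given `k` the `j` with `2^k < x + 1 + j ≤ 2^k + z` are at most `z` many (an interval). So the set is contained in the union of two sets with at most `z`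
elements each. `goodw`: if `n - 2^k` is prime and `p ∈ PP y z N` divides it, then `p = n - 2^k` and `p ≤ z`, which is excluded (compare `good2` in `UT/Good.lean`).
-/

set_option autoImplicit false

namespace Pool.Agent.H.MP_c90f74_nt.UV

open Finset

private lemma exc_card (x H z k : ℕ) :
    ((range H).filter (fun j => 2 ^ k < x + 1 + j ∧ x + 1 + j ≤ 2 ^ k + z)).card ≤ z := by
  have h : ((range H).filter (fun j => 2 ^ k < x + 1 + j ∧ x + 1 + j ≤ 2 ^ k + z)).card ≤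
      (Ioc (2 ^ k) (2 ^ k + z)).card := by
    refine Finset.card_le_card_of_injOn (fun j => x + 1 + j) ?_ ?_
    · intro j hj
      rw [Finset.mem_coe, Finset.mem_filter] at hj
      rw [Finset.mem_coe, Finset.mem_Ioc]
      exact hj.2
    · intro a _ b _ hab
      have h1 : x + 1 + a = x + 1 + b := hab
      omega
  rw [Nat.card_Ioc] at h
  omega

private lemma exc_k (x H z l j k : ℕ) (hl : 2 ^ l ≤ x) (hl' : x < 2 ^ (l + 1)) (hHx : H ≤ x)
    (hz : 2 * z ≤ x) (hj : j < H) (h1 : 2 ^ k < x + 1 + j) (h2 : x + 1 + j - 2 ^ k ≤ z) :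
    k = l ∨ k = l + 1 := by
  rcases Nat.lt_or_ge k l with h | h
  · exfalso
    have h3 : 2 ^ (k + 1) ≤ 2 ^ l := Nat.pow_le_pow_right (by norm_num) h
    rw [pow_succ] at h3
    omega
  · rcases Nat.lt_or_ge (l + 1) k with h4 | h4
    · exfalso
      have h3 : 2 ^ (l + 1 + 1) ≤ 2 ^ k := Nat.pow_le_pow_right (by norm_num) h4
      rw [pow_succ 2 (l + 1)] at h3
      omega
    · omega

open Classical in
theorem badw (x H z : ℕ) (hx : 1 ≤ x) (hHx : H ≤ x) (hz : 2 * z ≤ x) :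
    ((range H).filter (fun j => ∃ k : ℕ, 2 ^ k < x + 1 + j ∧ x + 1 + j - 2 ^ k ≤ z)).card ≤
      2 * z := by
  have hl : 2 ^ Nat.log 2 x ≤ x := Nat.pow_log_le_self 2 (by omega)
  have hl' : x < 2 ^ (Nat.log 2 x + 1) := Nat.lt_pow_succ_log_self (by norm_num) x
  obtain ⟨l, hle⟩ : ∃ l, l = Nat.log 2 x := ⟨_, rfl⟩
  rw [← hle] at hl hl'
  have hsub : (range H).filter (fun j => ∃ k : ℕ, 2 ^ k < x + 1 + j ∧ x + 1 + j - 2 ^ k ≤ z) ⊆
      (range H).filter (fun j => 2 ^ l < x + 1 + j ∧ x + 1 + j ≤ 2 ^ l + z) ∪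
        (range H).filter (fun j => 2 ^ (l + 1) < x + 1 + j ∧ x + 1 + j ≤ 2 ^ (l + 1) + z) := by
    intro j hj
    rw [Finset.mem_filter, Finset.mem_range] at hj
    obtain ⟨hjH, k, h1, h2⟩ := hj
    rw [Finset.mem_union, Finset.mem_filter, Finset.mem_filter, Finset.mem_range]
    rcases exc_k x H z l j k hl hl' hHx hz hjH h1 h2 with rfl | rfl
    · exact Or.inl ⟨hjH, h1, by omega⟩
    · exact Or.inr ⟨hjH, h1, by omega⟩
  have hc := Finset.card_le_card hsub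
  have hu := Finset.card_union_le
    ((range H).filter (fun j => 2 ^ l < x + 1 + j ∧ x + 1 + j ≤ 2 ^ l + z))
    ((range H).filter (fun j => 2 ^ (l + 1) < x + 1 + j ∧ x + 1 + j ≤ 2 ^ (l + 1) + z))
  have h3 := exc_card x H z l
  have h4 := exc_card x H z (l + 1)
  omega

theorem goodw (W : Finset ℕ) (y z N n : ℕ) (hn : ¬ ∃ k : ℕ, 2 ^ k < n ∧ n - 2 ^ k ≤ z) :
    RW W n ⊆ KW W y z N n := by
  intro k hk
  unfold RW at hk
  rw [Finset.mem_filter] at hk
  obtain ⟨h1, h2, h3⟩ := hk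
  unfold KW
  rw [Finset.mem_filter]
  refine ⟨h1, h2, fun p hp hpd => ?_⟩
  unfold SF.PP at hp
  rw [Finset.mem_filter, Finset.mem_Ioc] at hp
  have h6 : p = n - 2 ^ k := (Nat.prime_dvd_prime_iff_eq hp.2.1 h3).1 hpd
  exact hn ⟨k, h2, by rw [← h6]; exact hp.1.2⟩

end Pool.Agent.H.MP_c90f74_nt.UV
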