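import Pool.Agent.H.MP_c90f74_nt.UV.Tail

/-!
# UV/Main: the theorem

PROOF. `c` from `tailw`, `C = 50`. `M = |W|`, `l = log (N + 1)`, `b = 1 + c log H/(M l) ≥ 1`. `T ≤ 0`: `b^(-T) ≥ 1` (`Real.one_le_rpow`) and the set has at most `H` elements. `T > 0`: `t = ⌈T⌉₊ ≥ 1`, the set
is contained in the `n` with `t ≤ |RW W n|` (`Nat.ceil_le`), and `b^(-T) ≥ b^(-t) = (b^t)⁻¹` (`Real.rpow_neg`, `Real.rpow_natCast`, `Real.rpow_le_rpow_of_exponent_le`). If `t > M` the set is empty
(`card_filter_le`). Let `1 ≤ t ≤ M` (so `N ≥ 1`, `l ≥ log 2`). If `H < 16`: `log H ≤ 4 log 2 ≤ 4 l`, `base_le`: `b^t ≤ exp (4 c) ≤ exp (1/8) ≤ 50`, and the set has at most `H` elements. If `H ≥ 16`: `tailw` and the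
bijection `n = x + 1 + j`, `j ∈ range H` (see `Tail_card` in `UT/Tail.lean`).
-/

set_option autoImplicit false

namespace Pool.Agent.H.MP_c90f74_nt.UV

open Finset

private theorem Main_card (x H : ℕ) (P : ℕ → Prop) [DecidablePred P] :
    {n : ℕ | x < n ∧ n ≤ x + H ∧ P n}.ncard =
      ((range H).filter (fun j => P (x + 1 + j))).card := by
  classical
  have h1 : {n : ℕ | x < n ∧ n ≤ x + H ∧ P n} =
      (((range H).filter (fun j => P (x + 1 + j))).image (fun j => x + 1 + j) :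
        Finset ℕ) := by
    ext n
    rw [Finset.mem_coe, mem_image]
    constructor
    · rintro ⟨h2, h3, h4⟩
      refine ⟨n - (x + 1), mem_filter.2 ⟨mem_range.2 (by omega), ?_⟩, by omega⟩
      rw [show x + 1 + (n - (x + 1)) = n by omega]
      exact h4
    · rintro ⟨j, hj, rfl⟩
      obtain ⟨h2, h3⟩ := mem_filter.1 hj
      rw [mem_range] at h2
      exact ⟨by omega, by omega, h3⟩
  rw [h1, Set.ncard_coe_finset, card_image_of_injective _ fun a b hab => by
    have h2 : x + 1 + a = x + 1 + b := hab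
    omega]

theorem main : ∃ C c : ℝ, 0 < c ∧ ∀ x H : ℕ, 64 ≤ x → 1 ≤ H → H ≤ x →
    ∀ (a N : ℕ) (W : Finset ℕ), W ⊆ Finset.Icc (a + 1) (a + N) → ∀ T : ℝ,
      ({n : ℕ | x < n ∧ n ≤ x + H ∧
        T ≤ ((W.filter (fun k => 2 ^ k < n ∧ (n - 2 ^ k).Prime)).card : ℝ)}.ncard : ℝ) ≤
        C * H * (1 + c * Real.log H / (W.card * Real.log ((N : ℝ) + 1))) ^ (-T) := by
  classical
  obtain ⟨c, hc, hc32, htail⟩ := tailw
  refine ⟨50, c, hc, ?_⟩
  intro x H hx hH hHx a N W hW T
  change ({n : ℕ | x < n ∧ n ≤ x + H ∧ T ≤ ((RW W n).card : ℝ)}.ncard : ℝ) ≤ _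
  rw [Main_card x H (fun n => T ≤ ((RW W n).card : ℝ)), mul_div_assoc]
  have hH1 : (1 : ℝ) ≤ (H : ℝ) := by exact_mod_cast hH
  have hlH0 : 0 ≤ Real.log H := Real.log_nonneg hH1
  have hl0 : 0 ≤ Real.log ((N : ℝ) + 1) := Real.log_nonneg (by
    have : (0 : ℝ) ≤ N := Nat.cast_nonneg _
    linarith)
  have hu0 : 0 ≤ c * (Real.log H / (W.card * Real.log ((N : ℝ) + 1))) := by positivity
  have htriv : (((range H).filter (fun j => T ≤ ((RW W (x + 1 + j)).card : ℝ))).card : ℝ) ≤ H := by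
    have h2 := card_filter_le (range H) (fun j => T ≤ ((RW W (x + 1 + j)).card : ℝ))
    rw [card_range] at h2
    exact_mod_cast h2
  obtain ⟨b, hb⟩ : ∃ b, b = 1 + c * (Real.log H / (W.card * Real.log ((N : ℝ) + 1))) := ⟨_, rfl⟩
  rw [← hb]
  have hb1 : 1 ≤ b := by linarith
  rcases le_or_gt T 0 with hT | hT
  · have h1 : 1 ≤ b ^ (-T) := Real.one_le_rpow hb1 (by linarith)
    nlinarith
  have hceil : T ≤ ((⌈T⌉₊ : ℕ) : ℝ) := Nat.le_ceil T
  have ht1 : 1 ≤ ⌈T⌉₊ := Nat.one_le_ceil_iff.2 hT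
  obtain ⟨t, ht⟩ : ∃ t, t = ⌈T⌉₊ := ⟨_, rfl⟩
  rw [← ht] at hceil ht1
  have hpow : (b ^ t)⁻¹ ≤ b ^ (-T) := by
    rw [← Real.rpow_natCast, ← Real.rpow_neg (by linarith)]
    exact Real.rpow_le_rpow_of_exponent_le hb1 (by linarith)
  have hbt : 0 < b ^ t := by positivity
  have hset : (range H).filter (fun j => T ≤ ((RW W (x + 1 + j)).card : ℝ)) =
      (range H).filter (fun j => t ≤ (RW W (x + 1 + j)).card) := by
    refine filter_congr fun j _ => ?_
    rw [ht]
    exact Nat.ceil_le.symm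
  rcases Nat.lt_or_ge W.card t with htM | htM
  · have h1 : (range H).filter (fun j => t ≤ (RW W (x + 1 + j)).card) = ∅ := by
      refine filter_eq_empty_iff.2 fun j _ h2 => ?_
      have h3 : (RW W (x + 1 + j)).card ≤ W.card := card_filter_le _ _
      omega
    rw [hset, h1, card_empty, Nat.cast_zero]
    have h2 : 0 ≤ b ^ (-T) := Real.rpow_nonneg (by linarith) _
    positivity
  have hgoal : (((range H).filter (fun j => t ≤ (RW W (x + 1 + j)).card)).card : ℝ) ≤
      50 * H * (b ^ t)⁻¹ := by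
    rcases Nat.lt_or_ge H 16 with h16 | h16
    · rw [hset] at htriv
      have hN : 1 ≤ N := by
        rcases Nat.eq_zero_or_pos N with h0 | h0
        · rw [h0, add_zero, Icc_eq_empty (by omega), subset_empty] at hW
          rw [hW, card_empty] at htM
          omega
        · exact h0
      have hN1 : (1 : ℝ) ≤ N := by exact_mod_cast hN
      have hl2 : Real.log 2 ≤ Real.log ((N : ℝ) + 1) := Real.log_le_log (by norm_num) (by linarith)
      have hlp : 0 < Real.log 2 := Real.log_pos (by norm_num)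
      have hH16 : (H : ℝ) ≤ 2 ^ 4 := by
        have : H ≤ 2 ^ 4 := by omega
        exact_mod_cast this
      have hlH : Real.log H ≤ 4 * Real.log 2 := by
        have h1 := Real.log_le_log (by linarith) hH16
        rw [Real.log_pow] at h1
        exact_mod_cast h1
      have h1 := base_le c (Real.log ((N : ℝ) + 1)) (Real.log H) W.card t hc.le (by linarith) hlH0
        ht1 htM
      rw [← hb] at h1
      have h2 : c * Real.log H / Real.log ((N : ℝ) + 1) ≤ 1 := by
        rw [div_le_one (by linarith)]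
        have h3 : c * Real.log H ≤ 1 / 32 * (4 * Real.log ((N : ℝ) + 1)) :=
          mul_le_mul hc32 (by linarith) hlH0 (by norm_num)
        linarith
      have h3 : b ^ t ≤ 50 := by
        refine h1.trans ((Real.exp_le_exp.2 h2).trans ?_)
        have := Real.exp_one_lt_d9
        linarith
      have h4 : 1 ≤ 50 * (b ^ t)⁻¹ := by
        rw [← div_eq_mul_inv, le_div_iff₀ hbt]
        linarith
      nlinarith
    · have h1 := htail x H a N t W hx h16 hHx hW ht1 htM
      rw [← hb] at h1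
      have h2 : 0 ≤ (H : ℝ) * (b ^ t)⁻¹ := by positivity
      nlinarith
  rw [hset]
  exact hgoal.trans (mul_le_mul_of_nonneg_left hpow (by positivity))

end Pool.Agent.H.MP_c90f74_nt.UV
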