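import Mathlib

/-!
# UV/RealA: the case of few exponents

PROOF. `C(M, t) ≤ M^t/t!` (`Nat.choose_le_pow_div`) and `t^t/t! ≤ exp t` (`Real.pow_div_factorial_le_exp`), so `C(M, t) t^t ≤ M^t exp t = (e M)^t` and the left side is at most
`(3 e C M l/h)^t = (3 e C/u)^t` with `u = h/(M l)`. As `u ≥ 6 e C`: `1 + u/(12 e C) ≤ u/(6 e C) + u/(12 e C) ≤ u/(3 e C)`, so `3 e C/u ≤ (1 + u/(12 e C))⁻¹`; take `t`-th powers (`inv_pow`).
-/

set_option autoImplicit false

namespace Pool.Agent.H.MP_c90f74_nt.UV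

theorem realA (C l h : ℝ) (M t : ℕ) (hC : 1 ≤ C) (hl : 0 < l) (hh : 0 < h) (ht : 1 ≤ t)
    (htM : t ≤ M) (hu : 6 * Real.exp 1 * C ≤ h / (M * l)) :
    ((M.choose t : ℕ) : ℝ) * (C * t * (3 * l) / h) ^ t ≤
      ((1 + 1 / (12 * Real.exp 1 * C) * (h / (M * l))) ^ t)⁻¹ := by
  have hM : (0 : ℝ) < M := by
    have : 0 < M := by omega
    exact_mod_cast this
  have he : 0 < Real.exp 1 := Real.exp_pos 1
  have hC0 : 0 < C := lt_of_lt_of_le zero_lt_one hC
  have hMl : 0 < (M : ℝ) * l := mul_pos hM hl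
  obtain ⟨v, hv⟩ : ∃ v : ℝ, v = h / (M * l) := ⟨_, rfl⟩
  rw [← hv] at hu ⊢
  have hv0 : 0 < v := lt_of_lt_of_le (by positivity) hu
  have hh' : h = v * (M * l) := by
    rw [hv]
    field_simp
  have h1 : ((M.choose t : ℕ) : ℝ) ≤ (M : ℝ) ^ t / (t.factorial : ℝ) := Nat.choose_le_pow_div t M
  have h2 : (t : ℝ) ^ t / (t.factorial : ℝ) ≤ Real.exp t :=
    Real.pow_div_factorial_le_exp (t : ℝ) (Nat.cast_nonneg t) t
  have h3 : Real.exp (t : ℝ) = Real.exp 1 ^ t := by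
    rw [← Real.exp_nat_mul, mul_one]
  have hf : (0 : ℝ) < (t.factorial : ℝ) := by exact_mod_cast Nat.factorial_pos t
  have h4 : C * t * (3 * l) / h = (t : ℝ) * (3 * C * l / h) := by ring
  have h5 : (0 : ℝ) ≤ 3 * C * l / h := by positivity
  calc ((M.choose t : ℕ) : ℝ) * (C * t * (3 * l) / h) ^ t
      = ((M.choose t : ℕ) : ℝ) * ((t : ℝ) ^ t * (3 * C * l / h) ^ t) := by rw [h4, mul_pow]
    _ ≤ (M : ℝ) ^ t / (t.factorial : ℝ) * ((t : ℝ) ^ t * (3 * C * l / h) ^ t) := by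
        refine mul_le_mul_of_nonneg_right h1 ?_
        positivity
    _ = (M : ℝ) ^ t * (3 * C * l / h) ^ t * ((t : ℝ) ^ t / (t.factorial : ℝ)) := by ring
    _ ≤ (M : ℝ) ^ t * (3 * C * l / h) ^ t * Real.exp 1 ^ t := by
        rw [← h3]
        refine mul_le_mul_of_nonneg_left h2 ?_
        positivity
    _ = (3 * Real.exp 1 * C * v⁻¹) ^ t := by
        rw [← mul_pow, ← mul_pow]
        congr 1
        rw [hh']
        field_simp
    _ ≤ ((1 + 1 / (12 * Real.exp 1 * C) * v)⁻¹) ^ t := by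
        refine pow_le_pow_left₀ (by positivity) ?_ t
        rw [← div_eq_mul_inv, div_le_iff₀ hv0, inv_mul_eq_div, le_div_iff₀ (by positivity)]
        have h6 : 3 * Real.exp 1 * C * (1 + 1 / (12 * Real.exp 1 * C) * v) =
            3 * Real.exp 1 * C + v / 4 := by
          field_simp
          ring
        rw [h6]
        nlinarith [mul_pos he hC0]
    _ = ((1 + 1 / (12 * Real.exp 1 * C) * v) ^ t)⁻¹ := by rw [inv_pow]

end Pool.Agent.H.MP_c90f74_nt.UV
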