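import Pool.Agent.H.MP_c90f74_nt.SF.Avg

/-!
# UV/RealB: the case of many exponents

PROOF. `u = h/(M l)`, `A = u t/(12 e C)`. As `u < 6 e C`: `r ≤ A ≤ t/2`. `SF.Avg_choose M r t (2 M/t)` (for `i < r`: `M - i ≤ M = (2 M/t)(t/2) ≤ (2 M/t)(t - i)`): `C(M, r) ≤ (2 M/t)^r C(t, r)`. So the
left side is at most `((2 M/t) (3 C r l/h))^r C(t, r) = (6 C r/(u t))^r C(t, r)`, and `6 C r/(u t) ≤ 6 C/(12 e C) ≤ exp (-1)`; so it is at most `exp (-r) C(t, r) ≤ exp (1 - A) C(t, r)` and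
`(1 + u/(12 e C))^t ≤ exp (t u/(12 e C)) = exp A` (`Real.add_one_le_exp`, `pow_le_pow_left₀`, `Real.exp_nat_mul`).
-/

set_option autoImplicit false

namespace Pool.Agent.H.MP_c90f74_nt.UV

theorem realB (C l h : ℝ) (M t r : ℕ) (hC : 1 ≤ C) (hl : 0 < l) (hh : 0 < h) (ht : 1 ≤ t)
    (htM : t ≤ M) (hr : 1 ≤ r) (hu : h / (M * l) < 6 * Real.exp 1 * C)
    (hrA : (r : ℝ) ≤ 1 / (12 * Real.exp 1 * C) * (h / (M * l)) * t)
    (hAr : 1 / (12 * Real.exp 1 * C) * (h / (M * l)) * t < r + 1) :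
    ((M.choose r : ℕ) : ℝ) * (C * r * (3 * l) / h) ^ r ≤
      Real.exp 1 * ((1 + 1 / (12 * Real.exp 1 * C) * (h / (M * l))) ^ t)⁻¹ *
        ((t.choose r : ℕ) : ℝ) := by
  have he : (2 : ℝ) ≤ Real.exp 1 := by
    have := Real.add_one_le_exp (1 : ℝ)
    linarith
  have htR : (1 : ℝ) ≤ t := by exact_mod_cast ht
  have hMR : (t : ℝ) ≤ M := by exact_mod_cast htM
  have hrR : (1 : ℝ) ≤ r := by exact_mod_cast hr
  have hM0 : (0 : ℝ) < M := by linarith
  have ht0 : (0 : ℝ) < t := by linarith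
  have hC0 : (0 : ℝ) < C := by linarith
  have he0 : (0 : ℝ) < Real.exp 1 := Real.exp_pos 1
  obtain ⟨u, hu'⟩ : ∃ u, u = h / (M * l) := ⟨_, rfl⟩
  have hu0 : 0 < u := by rw [hu']; positivity
  rw [← hu'] at hu hrA hAr ⊢
  obtain ⟨x, hx⟩ : ∃ x, x = 1 / (12 * Real.exp 1 * C) * u := ⟨_, rfl⟩
  rw [← hx] at hrA hAr ⊢
  have hk : 0 < 12 * Real.exp 1 * C := by positivity
  have hxk : x * (12 * Real.exp 1 * C) = u := by
    rw [hx]
    field_simp
  have hx0 : 0 < x := by rw [hx]; positivity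
  have hx2 : x < 1 / 2 := by
    have h1 : x * (12 * Real.exp 1 * C) < 1 / 2 * (12 * Real.exp 1 * C) := by
      rw [hxk]
      linarith
    exact lt_of_mul_lt_mul_right h1 hk.le
  have hrt2 : (r : ℝ) ≤ t / 2 := by
    have : x * t ≤ 1 / 2 * t := by
      exact mul_le_mul_of_nonneg_right hx2.le ht0.le
    linarith
  have hrt : r ≤ t := by
    have : (r : ℝ) ≤ t := by linarith
    exact_mod_cast this
  have h1 := SF.Avg_choose M r t (2 * M / t) hrt htM (by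
    intro i hi
    have hiR : (i : ℝ) + 1 ≤ r := by exact_mod_cast hi
    have h2 : (t : ℝ) / 2 ≤ t - i := by linarith
    have h3 : (M : ℝ) = 2 * M / t * (t / 2) := by field_simp
    have h4 : 2 * (M : ℝ) / t * (t / 2) ≤ 2 * M / t * (t - i) :=
      mul_le_mul_of_nonneg_left h2 (by positivity)
    have h5 : (0 : ℝ) ≤ i := Nat.cast_nonneg i
    linarith)
  obtain ⟨q, hq⟩ : ∃ q, q = C * r * (3 * l) / h := ⟨_, rfl⟩
  have hq0 : 0 ≤ q := by rw [hq]; positivity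
  have h2 : 2 * M / t * q ≤ Real.exp (-1) := by
    have h3 : h = u * (M * l) := by
      rw [hu']
      field_simp
    have h4 : 2 * (M : ℝ) / t * q = 6 * C * r / (t * u) := by
      rw [hq, h3]
      field_simp
      ring
    rw [h4, Real.exp_neg, div_le_iff₀ (by positivity), ← hxk]
    have h5 : (Real.exp 1)⁻¹ * (t * (x * (12 * Real.exp 1 * C))) = 12 * C * (x * t) := by
      field_simp
    rw [h5]
    have h6 : 12 * C * (r : ℝ) ≤ 12 * C * (x * t) := mul_le_mul_of_nonneg_left hrA (by positivity)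
    have h7 : 0 ≤ C * r := by positivity
    linarith
  have h3 : (2 * M / t * q) ^ r ≤ Real.exp (-(r : ℝ)) := by
    have h4 : Real.exp (-(r : ℝ)) = Real.exp (-1) ^ r := by
      rw [← Real.exp_nat_mul]
      congr 1
      ring
    rw [h4]
    exact pow_le_pow_left₀ (by positivity) h2 r
  have h4 : Real.exp (-(r : ℝ)) ≤ Real.exp 1 * ((1 + x) ^ t)⁻¹ := by
    have h5 : (1 + x) ^ t ≤ Real.exp (t * x) := by
      rw [Real.exp_nat_mul]
      refine pow_le_pow_left₀ (by positivity) ?_ t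
      have := Real.add_one_le_exp x
      linarith
    have h6 : (Real.exp (t * x))⁻¹ ≤ ((1 + x) ^ t)⁻¹ := inv_anti₀ (by positivity) h5
    have h7 : Real.exp (-(r : ℝ)) ≤ Real.exp 1 * (Real.exp (t * x))⁻¹ := by
      rw [← Real.exp_neg, ← Real.exp_add]
      apply Real.exp_le_exp.2
      linarith [mul_comm (t : ℝ) x]
    exact h7.trans (mul_le_mul_of_nonneg_left h6 he0.le)
  have hch : (0 : ℝ) ≤ ((t.choose r : ℕ) : ℝ) := Nat.cast_nonneg _
  rw [← hq]
  calc ((M.choose r : ℕ) : ℝ) * q ^ r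
      ≤ ((2 * M / t) ^ r * ((t.choose r : ℕ) : ℝ)) * q ^ r :=
        mul_le_mul_of_nonneg_right h1 (by positivity)
    _ = (2 * M / t * q) ^ r * ((t.choose r : ℕ) : ℝ) := by
        rw [mul_pow]
        ring
    _ ≤ Real.exp (-(r : ℝ)) * ((t.choose r : ℕ) : ℝ) := mul_le_mul_of_nonneg_right h3 hch
    _ ≤ (Real.exp 1 * ((1 + x) ^ t)⁻¹) * ((t.choose r : ℕ) : ℝ) :=
        mul_le_mul_of_nonneg_right h4 hch

end Pool.Agent.H.MP_c90f74_nt.UV
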