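import Mathlib

/-!
# UV/RealC: two bounds for the base

PROOF. `1 + b ≤ exp b` (`Real.add_one_le_exp`), so `(1 + c u)^t ≤ exp (c u t)` (`u = h/(M l)`) and `c u t ≤ c u M = c h/l`.
-/

set_option autoImplicit false

namespace Pool.Agent.H.MP_c90f74_nt.UV

theorem base_exp (b : ℝ) (t : ℕ) (hb : 0 ≤ b) : (1 + b) ^ t ≤ Real.exp (b * t) := by
  have h1 : 1 + b ≤ Real.exp b := by
    have := Real.add_one_le_exp b
    linarith
  calc (1 + b) ^ t ≤ Real.exp b ^ t := pow_le_pow_left₀ (by linarith) h1 t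
    _ = Real.exp (b * t) := by
      rw [← Real.exp_nat_mul]
      congr 1
      ring

theorem base_le (c l h : ℝ) (M t : ℕ) (hc : 0 ≤ c) (hl : 0 < l) (hh : 0 ≤ h) (ht : 1 ≤ t)
    (htM : t ≤ M) : (1 + c * (h / (M * l))) ^ t ≤ Real.exp (c * h / l) := by
  have hM : (0 : ℝ) < M := by
    have : 0 < M := by omega
    exact_mod_cast this
  have htM' : (t : ℝ) ≤ M := by exact_mod_cast htM
  have hb : 0 ≤ c * (h / (M * l)) := by positivity
  refine (base_exp _ t hb).trans (Real.exp_le_exp.2 ?_)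
  calc c * (h / (M * l)) * t ≤ c * (h / (M * l)) * M := mul_le_mul_of_nonneg_left htM' hb
    _ = c * h / l := by field_simp

end Pool.Agent.H.MP_c90f74_nt.UV
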