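import Pool.Agent.H.MP_c90f74_nt.UV.TailR
import Pool.Agent.H.MP_c90f74_nt.UV.RealA
import Pool.Agent.H.MP_c90f74_nt.UV.RealB
import Pool.Agent.H.MP_c90f74_nt.UV.RealC

/-!
# UV/Tail: the bound for `H ≥ 16`

PROOF of `tailw`. `C` from `cntw3`, `c = 1/(12 e C) ≤ 1/32`, `M = |W|`, `l = log (N + 1) > 0` (`N ≥ 1` as `W` is not empty), `u = log H/(M l)`, `b = 1 + c u`.
`2 sqrt H ≤ 2 H / b^t`: `b^t ≤ exp (c log H/l) ≤ exp (log H/2) = sqrt H` (`base_le`; `l ≥ log 2 > 1/16 ≥ 2 c`). Case `u ≥ 6 e C`: `tailr` with `r = t` (`C(t, t) = 1`) and `realA`: `|set| ≤ 2 sqrt H + 16 H/b^t`.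
Case `u < 6 e C`: `r = ⌊c u t⌋₊`; if `r = 0`: `b^t ≤ exp (c u t) ≤ e` (`base_exp`) and `|set| ≤ H ≤ e H/b^t`; if `r ≥ 1`: `r ≤ c u t ≤ t/2`, `tailr` and `realB`, divide by `C(t, r) > 0`:
`|set| ≤ 2 sqrt H + 16 e H/b^t`. `2 + 16 e ≤ 46`.
-/

set_option autoImplicit false

namespace Pool.Agent.H.MP_c90f74_nt.UV

open Finset

/-- The case distinction for the real numbers `S` (the size of the set). -/
private theorem Tail_real (C l h Hr S : ℝ) (M t : ℕ) (hC : 1 ≤ C) (hl : 1 / 2 ≤ l) (hh : 0 < h)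
    (hHr : 0 < Hr) (hsq : Real.exp (h / 2) = Real.sqrt Hr) (ht : 1 ≤ t) (htM : t ≤ M)
    (hSH : S ≤ Hr)
    (key : ∀ r : ℕ, 1 ≤ r → r ≤ t → S * ((t.choose r : ℕ) : ℝ) ≤
      2 * Real.sqrt Hr * ((t.choose r : ℕ) : ℝ) +
        16 * Hr * (((M.choose r : ℕ) : ℝ) * (C * r * (3 * l) / h) ^ r)) :
    S ≤ 46 * Hr * ((1 + 1 / (12 * Real.exp 1 * C) * (h / (M * l))) ^ t)⁻¹ := by
  have he1 := Real.exp_one_gt_d9
  have he2 := Real.exp_one_lt_d9
  have hepos : 0 < Real.exp 1 := Real.exp_pos 1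
  have hl0 : 0 < l := by linarith
  have hM1 : (1 : ℝ) ≤ M := by exact_mod_cast ht.trans htM
  have ht1 : (1 : ℝ) ≤ t := by exact_mod_cast ht
  have heC : 0 < 12 * Real.exp 1 * C := by positivity
  set c : ℝ := 1 / (12 * Real.exp 1 * C) with hc
  have hcpos : 0 < c := by positivity
  have hc4 : c ≤ 1 / 4 := by
    rw [hc, div_le_div_iff₀ heC (by norm_num)]
    nlinarith
  set u : ℝ := h / (M * l) with hu
  have hupos : 0 < u := by positivity
  have hb1 : 1 ≤ 1 + c * u := by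
    have : 0 < c * u := by positivity
    linarith
  set B : ℝ := (1 + c * u) ^ t with hB
  have hBpos : 0 < B := by positivity
  -- the square root
  have hsqB : Real.sqrt Hr ≤ Hr * B⁻¹ := by
    have h1 : B ≤ Real.exp (c * h / l) := base_le c l h M t hcpos.le hl0 hh.le ht htM
    have h2 : c * h / l ≤ h / 2 := by
      rw [div_le_div_iff₀ hl0 (by norm_num)]
      have : c * 2 ≤ l := by linarith
      nlinarith
    have h3 : B ≤ Real.sqrt Hr := by
      rw [← hsq]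
      exact h1.trans (Real.exp_le_exp.2 h2)
    rw [← div_eq_mul_inv, le_div_iff₀ hBpos]
    calc Real.sqrt Hr * B ≤ Real.sqrt Hr * Real.sqrt Hr :=
          mul_le_mul_of_nonneg_left h3 (Real.sqrt_nonneg _)
      _ = Hr := Real.mul_self_sqrt hHr.le
  have hX : 0 < Hr * B⁻¹ := by positivity
  have e46 : 46 * Hr * B⁻¹ = 46 * (Hr * B⁻¹) := by ring
  rw [e46]
  by_cases hcase : 6 * Real.exp 1 * C ≤ u
  · have h1 := key t ht le_rfl
    rw [Nat.choose_self, Nat.cast_one, mul_one, mul_one] at h1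
    have h2 := realA C l h M t hC hl0 hh ht htM hcase
    have h3 : 16 * Hr * (((M.choose t : ℕ) : ℝ) * (C * t * (3 * l) / h) ^ t) ≤ 16 * Hr * B⁻¹ :=
      mul_le_mul_of_nonneg_left h2 (by positivity)
    linarith
  · push Not at hcase
    have hcu : c * u ≤ 1 / 2 := by
      have h1 : c * u ≤ c * (6 * Real.exp 1 * C) := mul_le_mul_of_nonneg_left hcase.le hcpos.le
      have h2 : c * (6 * Real.exp 1 * C) = 1 / 2 := by
        rw [hc]
        field_simp
        norm_num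
      linarith
    have hA0 : 0 ≤ c * u * t := by positivity
    have hr1 : ((⌊c * u * t⌋₊ : ℕ) : ℝ) ≤ c * u * t := Nat.floor_le hA0
    have hr2 : c * u * t < ((⌊c * u * t⌋₊ : ℕ) : ℝ) + 1 := Nat.lt_floor_add_one _
    set r : ℕ := ⌊c * u * t⌋₊ with hr
    rcases Nat.eq_zero_or_pos r with h0 | hpos
    · rw [h0, Nat.cast_zero, zero_add] at hr2
      have h1 : B ≤ Real.exp (c * u * t) := base_exp (c * u) t (by positivity)
      have h2 : B ≤ Real.exp 1 := h1.trans (Real.exp_le_exp.2 hr2.le)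
      have h3 : Hr ≤ Real.exp 1 * (Hr * B⁻¹) := by
        have h4 : Real.exp 1 * (Hr * B⁻¹) = Real.exp 1 * Hr / B := by
          rw [div_eq_mul_inv]
          ring
        rw [h4, le_div_iff₀ hBpos]
        nlinarith
      have h5 : Real.exp 1 * (Hr * B⁻¹) ≤ 46 * (Hr * B⁻¹) :=
        mul_le_mul_of_nonneg_right (by linarith) hX.le
      linarith
    · have hrt : r ≤ t := by
        have h1 : (r : ℝ) ≤ t := by
          have h2 : c * u * t ≤ 1 / 2 * t := mul_le_mul_of_nonneg_right hcu (by linarith)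
          linarith
        exact_mod_cast h1
      have h1 := key r hpos hrt
      have h2 := realB C l h M t r hC hl0 hh ht htM hpos hcase hr1 hr2
      have hch : (0 : ℝ) < ((t.choose r : ℕ) : ℝ) := by
        exact_mod_cast Nat.choose_pos hrt
      have h3 : 16 * Hr * (((M.choose r : ℕ) : ℝ) * (C * r * (3 * l) / h) ^ r) ≤
          16 * Hr * (Real.exp 1 * B⁻¹ * ((t.choose r : ℕ) : ℝ)) :=
        mul_le_mul_of_nonneg_left h2 (by positivity)
      have h4 : S * ((t.choose r : ℕ) : ℝ) ≤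
          (2 * Real.sqrt Hr + 16 * Real.exp 1 * (Hr * B⁻¹)) * ((t.choose r : ℕ) : ℝ) := by
        have e : (2 * Real.sqrt Hr + 16 * Real.exp 1 * (Hr * B⁻¹)) * ((t.choose r : ℕ) : ℝ) =
          2 * Real.sqrt Hr * ((t.choose r : ℕ) : ℝ) +
            16 * Hr * (Real.exp 1 * B⁻¹ * ((t.choose r : ℕ) : ℝ)) := by ring
        rw [e]
        linarith
      have h5 : S ≤ 2 * Real.sqrt Hr + 16 * Real.exp 1 * (Hr * B⁻¹) :=
        le_of_mul_le_mul_right h4 hch
      have h6 : 16 * Real.exp 1 * (Hr * B⁻¹) ≤ 44 * (Hr * B⁻¹) :=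
        mul_le_mul_of_nonneg_right (by linarith) hX.le
      linarith

theorem tailw : ∃ c : ℝ, 0 < c ∧ c ≤ 1 / 32 ∧ ∀ (x H a N t : ℕ) (W : Finset ℕ), 64 ≤ x →
    16 ≤ H → H ≤ x → W ⊆ Icc (a + 1) (a + N) → 1 ≤ t → t ≤ W.card →
    (((range H).filter (fun j => t ≤ (RW W (x + 1 + j)).card)).card : ℝ) ≤
      46 * H * ((1 + c * (Real.log H / (W.card * Real.log ((N : ℝ) + 1)))) ^ t)⁻¹ := by
  obtain ⟨C, hC, hcnt⟩ := cntw3
  have he1 := Real.exp_one_gt_d9
  have hepos : 0 < Real.exp 1 := Real.exp_pos 1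
  have heC : 0 < 12 * Real.exp 1 * C := by positivity
  refine ⟨1 / (12 * Real.exp 1 * C), by positivity, ?_, ?_⟩
  · rw [div_le_div_iff₀ heC (by norm_num)]
    nlinarith
  intro x H a N t W hx hH hHx hW ht htM
  have hN : 1 ≤ N := by
    have h1 : 0 < W.card := by omega
    obtain ⟨w, hw⟩ := Finset.card_pos.1 h1
    have h2 := Finset.mem_Icc.1 (hW hw)
    omega
  have hH1 : (16 : ℝ) ≤ H := by exact_mod_cast hH
  have hH0 : (0 : ℝ) < H := by linarith
  have hN1 : (1 : ℝ) ≤ N := by exact_mod_cast hN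
  have hl : 1 / 2 ≤ Real.log ((N : ℝ) + 1) := by
    have h1 := Real.log_two_gt_d9
    have h2 : Real.log 2 ≤ Real.log ((N : ℝ) + 1) := Real.log_le_log (by norm_num) (by linarith)
    linarith
  refine Tail_real C (Real.log ((N : ℝ) + 1)) (Real.log H) H _ W.card t hC hl
    (Real.log_pos (by linarith)) hH0 ?_ ht htM ?_ ?_
  · rw [Real.exp_half, Real.exp_log hH0]
  · have h1 := Finset.card_filter_le (range H) (fun j => t ≤ (RW W (x + 1 + j)).card)
    rw [Finset.card_range] at h1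
    exact_mod_cast h1
  · intro r hr hrt
    exact tailr hC hcnt x H a N t r W hx hH hHx hW hN hr hrt

end Pool.Agent.H.MP_c90f74_nt.UV
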